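import Mathlib

set_option autoImplicit false

namespace Pool.Agent.MP0402b8

/-- positively homogeneous -/
def PH {E F : Type} [NormedAddCommGroup E] [NormedSpace ℝ E] [NormedAddCommGroup F]
    [NormedSpace ℝ F] (f : E → F) : Prop :=
  ∀ t : ℝ, 0 ≤ t → ∀ x : E, f (t • x) = t • f x

/-- uniformly continuous on the closed unit ball -/
def UB {E F : Type} [NormedAddCommGroup E] [NormedAddCommGroup F] (f : E → F) : Prop :=
  ∀ ε : ℝ, 0 < ε → ∃ δ : ℝ, 0 < δ ∧ ∀ x y : E, ‖x‖ ≤ 1 → ‖y‖ ≤ 1 → ‖x - y‖ < δ →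
    ‖f x - f y‖ < ε

/-- existence of a positively homogeneous bijection, uniformly continuous on balls both ways -/
def HU (E F : Type) [NormedAddCommGroup E] [NormedSpace ℝ E] [NormedAddCommGroup F]
    [NormedSpace ℝ F] : Prop :=
  ∃ (f : E → F) (g : F → E), (∀ x, g (f x) = x) ∧ (∀ y, f (g y) = y) ∧ PH f ∧ PH g ∧ UB f ∧ UB g

section basic
variable {E F G E' F' : Type} [NormedAddCommGroup E] [NormedSpace ℝ E] [NormedAddCommGroup F]
    [NormedSpace ℝ F] [NormedAddCommGroup G] [NormedSpace ℝ G]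
    [NormedAddCommGroup E'] [NormedSpace ℝ E'] [NormedAddCommGroup F'] [NormedSpace ℝ F']

lemma PH.zero {f : E → F} (h : PH f) : f 0 = 0 := by
  have := h 0 le_rfl 0
  simpa using this

/-- boundedness -/
lemma bound_of {f : E → F} (h : PH f) (u : UB f) : ∃ C : ℝ, 0 < C ∧ ∀ x, ‖f x‖ ≤ C * ‖x‖ := by
  obtain ⟨δ, hδ, H⟩ := u 1 one_pos
  have hm : 0 < min (δ/2) 1 := lt_min (by linarith) one_pos
  refine ⟨(min (δ/2) 1)⁻¹, inv_pos.mpr hm, fun x => ?_⟩
  by_cases hx : x = 0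
  · subst hx; simp [h.zero]
  have hx' : 0 < ‖x‖ := norm_pos_iff.mpr hx
  set c := min (δ/2) 1 with hc
  have h1 : ‖(c / ‖x‖) • x‖ = c := by
    rw [norm_smul, Real.norm_of_nonneg (by positivity)]
    field_simp
  have h2 := H ((c / ‖x‖) • x) 0 (by rw [h1]; exact min_le_right _ _) (by simp)
    (by rw [sub_zero, h1]; exact lt_of_le_of_lt (min_le_left _ _) (by linarith))
  rw [h.zero, sub_zero, h _ (by positivity), norm_smul, Real.norm_of_nonneg (by positivity)] at h2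
  rw [div_mul_eq_mul_div, div_lt_one hx'] at h2
  rw [inv_mul_eq_div, le_div_iff₀ hm]
  linarith

/-- composition -/
lemma UB.comp {g : F → G} {f : E → F} (hg : PH g) (ug : UB g) (hf : PH f) (uf : UB f) :
    UB (fun x => g (f x)) := by
  obtain ⟨C, hC, hb⟩ := bound_of hf uf
  intro ε hε
  obtain ⟨δ, hδ, H⟩ := ug (ε / C) (by positivity)
  obtain ⟨δ', hδ', H'⟩ := uf (C * δ) (by positivity)
  refine ⟨δ', hδ', fun x y hx hy hxy => ?_⟩
  have h1 := H' x y hx hy hxy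
  have hnx : ‖(C⁻¹) • f x‖ ≤ 1 := by
    rw [norm_smul, Real.norm_of_nonneg (by positivity), inv_mul_le_iff₀ hC, mul_one]
    exact (hb x).trans (by nlinarith)
  have hny : ‖(C⁻¹) • f y‖ ≤ 1 := by
    rw [norm_smul, Real.norm_of_nonneg (by positivity), inv_mul_le_iff₀ hC, mul_one]
    exact (hb y).trans (by nlinarith)
  have h2 := H (C⁻¹ • f x) (C⁻¹ • f y) hnx hny (by
    rw [← smul_sub, norm_smul, Real.norm_of_nonneg (by positivity), inv_mul_lt_iff₀ hC]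
    exact h1)
  rw [hg _ (by positivity), hg _ (by positivity), ← smul_sub, norm_smul,
    Real.norm_of_nonneg (by positivity), inv_mul_lt_iff₀ hC] at h2
  calc ‖g (f x) - g (f y)‖ < C * (ε / C) := h2
    _ = ε := by field_simp

lemma HU.symm (h : HU E F) : HU F E := by
  obtain ⟨f, g, h1, h2, h3, h4, h5, h6⟩ := h
  exact ⟨g, f, h2, h1, h4, h3, h6, h5⟩

lemma HU.trans (h : HU E F) (k : HU F G) : HU E G := by
  obtain ⟨f, g, h1, h2, h3, h4, h5, h6⟩ := h
  obtain ⟨f', g', k1, k2, k3, k4, k5, k6⟩ := k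
  refine ⟨fun x => f' (f x), fun z => g (g' z), fun x => by simp [k1, h1], fun z => by simp [k2, h2],
    fun t ht x => by simp [h3 t ht, k3 t ht], fun t ht x => by simp [h4 t ht, k4 t ht],
    UB.comp k3 k5 h3 h5, UB.comp h4 h6 k4 k6⟩

lemma HU.prod (h : HU E F) (k : HU E' F') : HU (E × E') (F × F') := by
  obtain ⟨f, g, h1, h2, h3, h4, h5, h6⟩ := h
  obtain ⟨f', g', k1, k2, k3, k4, k5, k6⟩ := k
  have key : ∀ {A B A' B' : Type} [NormedAddCommGroup A] [NormedAddCommGroup B]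
      [NormedAddCommGroup A'] [NormedAddCommGroup B'] (p : A → B) (q : A' → B'), UB p → UB q →
      UB (fun z : A × A' => (p z.1, q z.2)) := by
    intro A B A' B' _ _ _ _ p q hp hq ε hε
    obtain ⟨δ, hδ, H⟩ := hp ε hε
    obtain ⟨δ', hδ', H'⟩ := hq ε hε
    refine ⟨min δ δ', lt_min hδ hδ', fun x y hx hy hxy => ?_⟩
    rw [Prod.norm_def] at hx hy hxy ⊢
    simp only [max_le_iff, max_lt_iff, lt_min_iff] at *
    exact ⟨H _ _ hx.1 hy.1 hxy.1.1, H' _ _ hx.2 hy.2 hxy.2.2⟩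
  refine ⟨fun z => (f z.1, f' z.2), fun z => (g z.1, g' z.2), fun z => by simp [h1, k1],
    fun z => by simp [h2, k2], fun t ht x => by simp [h3 t ht, k3 t ht],
    fun t ht x => by simp [h4 t ht, k4 t ht], key _ _ h5 k5, key _ _ h6 k6⟩

lemma UB_clm (f : E →L[ℝ] F) : UB (fun x => f x) := by
  intro ε hε
  refine ⟨ε / (‖f‖ + 1), by positivity, fun x y _ _ hxy => ?_⟩
  rw [← map_sub]
  rw [lt_div_iff₀ (by positivity)] at hxy
  calc ‖f (x - y)‖ ≤ ‖f‖ * ‖x - y‖ := f.le_opNorm _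
    _ ≤ ‖x - y‖ * (‖f‖ + 1) := by nlinarith [norm_nonneg (x - y)]
    _ < ε := hxy

lemma HU_of_clm (f : E →L[ℝ] F) (g : F →L[ℝ] E) (h1 : ∀ x, g (f x) = x) (h2 : ∀ y, f (g y) = y) :
    HU E F :=
  ⟨fun x => f x, fun y => g y, h1, h2, fun t _ x => by simp, fun t _ x => by simp,
    UB_clm f, UB_clm g⟩

lemma HU_of_cle (e : E ≃L[ℝ] F) : HU E F :=
  HU_of_clm (e : E →L[ℝ] F) (e.symm : F →L[ℝ] E) (by simp) (by simp)

lemma HU.refl : HU E E := HU_of_cle (ContinuousLinearEquiv.refl ℝ E)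


lemma HU_imp_sphere (h : HU E F) :
    Nonempty (UniformEquiv (Metric.sphere (0 : E) 1) (Metric.sphere (0 : F) 1)) := by
  obtain ⟨f, g, h1, h2, h3, h4, h5, h6⟩ := h
  -- general fact about normalised maps
  have key : ∀ {A B : Type} [NormedAddCommGroup A] [NormedSpace ℝ A] [NormedAddCommGroup B]
      [NormedSpace ℝ B] (p : A → B) (q : B → A), (∀ x, q (p x) = x) → PH p → PH q → UB p → UB q →
      (∀ x : A, ‖x‖ = 1 → p x ≠ 0) ∧
      (∀ ε : ℝ, 0 < ε → ∃ δ : ℝ, 0 < δ ∧ ∀ x y : A, ‖x‖ = 1 → ‖y‖ = 1 → ‖x - y‖ < δ →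
        ‖(‖p x‖⁻¹) • p x - (‖p y‖⁻¹) • p y‖ < ε) := by
    intro A B _ _ _ _ p q hqp hp hq up uq
    obtain ⟨C, hC, hb⟩ := bound_of hq uq
    have low : ∀ x : A, ‖x‖ = 1 → C⁻¹ ≤ ‖p x‖ := by
      intro x hx
      have := hb (p x)
      rw [hqp, hx] at this
      rw [inv_le_iff_one_le_mul₀ hC]
      linarith
    refine ⟨fun x hx h0 => ?_, fun ε hε => ?_⟩
    · have := low x hx
      rw [h0, norm_zero] at this
      have := inv_pos.mpr hC
      linarith
    · obtain ⟨δ, hδ, H⟩ := up (ε / (2 * C)) (by positivity)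
      refine ⟨δ, hδ, fun x y hx hy hxy => ?_⟩
      have h1 := H x y hx.le hy.le hxy
      have lx := low x hx
      have ly := low y hy
      have hCi := inv_pos.mpr hC
      have px : 0 < ‖p x‖ := by linarith
      have py : 0 < ‖p y‖ := by linarith
      have e1 : (‖p x‖⁻¹) • p x - (‖p y‖⁻¹) • p y
          = (‖p x‖⁻¹) • (p x - p y) + (‖p x‖⁻¹ * (‖p y‖ - ‖p x‖) * ‖p y‖⁻¹) • p y := by
        rw [smul_sub]
        have : ‖p x‖⁻¹ * (‖p y‖ - ‖p x‖) * ‖p y‖⁻¹ = ‖p x‖⁻¹ - ‖p y‖⁻¹ := by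
          field_simp
        rw [this, sub_smul]
        abel
      rw [e1]
      have n1 : ‖(‖p x‖⁻¹) • (p x - p y)‖ = ‖p x‖⁻¹ * ‖p x - p y‖ := by
        rw [norm_smul, Real.norm_of_nonneg (by positivity)]
      have n2 : ‖(‖p x‖⁻¹ * (‖p y‖ - ‖p x‖) * ‖p y‖⁻¹) • p y‖ ≤ ‖p x‖⁻¹ * ‖p x - p y‖ := by
        rw [norm_smul, Real.norm_eq_abs, abs_mul, abs_mul, abs_of_pos (inv_pos.mpr px),
          abs_of_pos (inv_pos.mpr py)]
        have : |‖p y‖ - ‖p x‖| ≤ ‖p x - p y‖ := by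
          rw [norm_sub_rev]; exact abs_norm_sub_norm_le _ _
        calc ‖p x‖⁻¹ * |‖p y‖ - ‖p x‖| * ‖p y‖⁻¹ * ‖p y‖
            = ‖p x‖⁻¹ * |‖p y‖ - ‖p x‖| := by field_simp
          _ ≤ _ := by gcongr
      have n3 : ‖p x‖⁻¹ ≤ C := by
        rw [inv_le_comm₀ px hC]; exact lx
      calc ‖(‖p x‖⁻¹) • (p x - p y) + (‖p x‖⁻¹ * (‖p y‖ - ‖p x‖) * ‖p y‖⁻¹) • p y‖
          ≤ ‖p x‖⁻¹ * ‖p x - p y‖ + ‖p x‖⁻¹ * ‖p x - p y‖ := by
            refine (norm_add_le _ _).trans ?_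
            rw [n1]; gcongr
        _ ≤ C * ‖p x - p y‖ + C * ‖p x - p y‖ := by gcongr
        _ < C * (ε / (2 * C)) + C * (ε / (2 * C)) := by gcongr
        _ = ε := by field_simp; ring
  have K1 := key f g h1 h3 h4 h5 h6
  have K2 := key g f h2 h4 h3 h6 h5
  have unit : ∀ {B : Type} [NormedAddCommGroup B] [NormedSpace ℝ B] (v : B), v ≠ 0 →
      ‖(‖v‖⁻¹) • v‖ = 1 := by
    intro B _ _ v hv
    rw [norm_smul, norm_inv, norm_norm, inv_mul_cancel₀ (norm_ne_zero_iff.mpr hv)]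
  refine ⟨{
    toFun := fun x => ⟨(‖f x‖⁻¹) • f x, by
      simpa using unit _ (K1.1 x (by simpa using x.2))⟩
    invFun := fun y => ⟨(‖g y‖⁻¹) • g y, by
      simpa using unit _ (K2.1 y (by simpa using y.2))⟩
    left_inv := ?_
    right_inv := ?_
    uniformContinuous_toFun := ?_
    uniformContinuous_invFun := ?_ }⟩
  · rintro ⟨x, hx⟩
    have hx1 : ‖x‖ = 1 := by simpa using hx
    apply Subtype.ext
    simp only
    have hp : 0 < ‖f x‖ := norm_pos_iff.mpr (K1.1 x hx1)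
    rw [h4 _ (by positivity), h1, norm_smul, Real.norm_of_nonneg (by positivity), hx1, mul_one,
      smul_smul, inv_inv, mul_inv_cancel₀ hp.ne', one_smul]
  · rintro ⟨x, hx⟩
    have hx1 : ‖x‖ = 1 := by simpa using hx
    apply Subtype.ext
    simp only
    have hp : 0 < ‖g x‖ := norm_pos_iff.mpr (K2.1 x hx1)
    rw [h3 _ (by positivity), h2, norm_smul, Real.norm_of_nonneg (by positivity), hx1, mul_one,
      smul_smul, inv_inv, mul_inv_cancel₀ hp.ne', one_smul]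
  · rw [Metric.uniformContinuous_iff]
    intro ε hε
    obtain ⟨δ, hδ, H⟩ := K1.2 ε hε
    refine ⟨δ, hδ, ?_⟩
    rintro ⟨x, hx⟩ ⟨y, hy⟩ hxy
    rw [Subtype.dist_eq, dist_eq_norm] at hxy ⊢
    exact H x y (by simpa using hx) (by simpa using hy) hxy
  · rw [Metric.uniformContinuous_iff]
    intro ε hε
    obtain ⟨δ, hδ, H⟩ := K2.2 ε hε
    refine ⟨δ, hδ, ?_⟩
    rintro ⟨x, hx⟩ ⟨y, hy⟩ hxy
    rw [Subtype.dist_eq, dist_eq_norm] at hxy ⊢
    exact H x y (by simpa using hx) (by simpa using hy) hxy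

open Classical in
/-- radial extension of a map defined on the sphere -/
noncomputable def rad (φ : Metric.sphere (0 : E) 1 → Metric.sphere (0 : F) 1) (x : E) : F :=
  if h : x = 0 then 0 else
    ‖x‖ • (φ ⟨(‖x‖⁻¹) • x, by
      simp [norm_smul, inv_mul_cancel₀ (norm_ne_zero_iff.mpr h)]⟩ : F)

lemma rad_zero (φ : Metric.sphere (0 : E) 1 → Metric.sphere (0 : F) 1) : rad φ 0 = 0 := by
  simp [rad]

lemma rad_smul (φ : Metric.sphere (0 : E) 1 → Metric.sphere (0 : F) 1) (t : ℝ) (ht : 0 ≤ t)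
    (u : Metric.sphere (0 : E) 1) : rad φ (t • (u : E)) = t • (φ u : F) := by
  have hu : ‖(u : E)‖ = 1 := by simpa using u.2
  rcases ht.eq_or_lt with h0 | h0
  · subst h0; simp [rad_zero]
  have hn : ‖t • (u : E)‖ = t := by rw [norm_smul, hu, mul_one, Real.norm_of_nonneg ht]
  have hne : t • (u : E) ≠ 0 := by
    rw [← norm_ne_zero_iff, hn]; exact h0.ne'
  have hk : ∀ h', φ ⟨(‖t • (u : E)‖⁻¹) • (t • (u : E)), h'⟩ = φ u := by
    intro h'
    congr 1
    apply Subtype.ext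
    simp only
    rw [hn, smul_smul, inv_mul_cancel₀ h0.ne', one_smul]
  unfold rad
  rw [dif_neg hne, hk, hn]

lemma exists_polar (x : E) (hx : x ≠ 0) : ∃ (u : Metric.sphere (0 : E) 1), x = ‖x‖ • (u : E) := by
  have hn : ‖x‖ ≠ 0 := norm_ne_zero_iff.mpr hx
  refine ⟨⟨(‖x‖⁻¹) • x, by simp [norm_smul, inv_mul_cancel₀ hn]⟩, ?_⟩
  simp only
  rw [smul_smul, mul_inv_cancel₀ hn, one_smul]

lemma rad_PH (φ : Metric.sphere (0 : E) 1 → Metric.sphere (0 : F) 1) : PH (rad φ) := by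
  intro t ht x
  by_cases hx : x = 0
  · subst hx; simp [rad_zero]
  obtain ⟨u, hu⟩ := exists_polar x hx
  have h1 : rad φ x = ‖x‖ • (φ u : F) := by
    conv_lhs => rw [hu]
    exact rad_smul φ _ (norm_nonneg _) u
  have h2 : rad φ (t • x) = (t * ‖x‖) • (φ u : F) := by
    conv_lhs => rw [hu, smul_smul]
    exact rad_smul φ _ (by positivity) u
  rw [h1, h2, smul_smul]

lemma rad_norm (φ : Metric.sphere (0 : E) 1 → Metric.sphere (0 : F) 1) (x : E) :
    ‖rad φ x‖ = ‖x‖ := by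
  by_cases hx : x = 0
  · subst hx; simp [rad_zero]
  obtain ⟨u, hu⟩ := exists_polar x hx
  have h1 : rad φ x = ‖x‖ • (φ u : F) := by
    conv_lhs => rw [hu]
    exact rad_smul φ _ (norm_nonneg _) u
  have hv : ‖(φ u : F)‖ = 1 := by simpa using (φ u).2
  rw [h1, norm_smul, hv, norm_norm, mul_one]

lemma rad_inv (φ : Metric.sphere (0 : E) 1 → Metric.sphere (0 : F) 1)
    (ψ : Metric.sphere (0 : F) 1 → Metric.sphere (0 : E) 1) (h : ∀ u, ψ (φ u) = u) (x : E) :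
    rad ψ (rad φ x) = x := by
  by_cases hx : x = 0
  · subst hx; simp [rad_zero]
  obtain ⟨u, hu⟩ := exists_polar x hx
  have h1 : rad φ x = ‖x‖ • (φ u : F) := by
    conv_lhs => rw [hu]
    exact rad_smul φ _ (norm_nonneg _) u
  rw [h1, rad_smul ψ _ (norm_nonneg _), h, ← hu]

lemma rad_UB (φ : Metric.sphere (0 : E) 1 → Metric.sphere (0 : F) 1)
    (hφ : UniformContinuous φ) : UB (rad φ) := by
  intro ε hε
  rw [Metric.uniformContinuous_iff] at hφ
  obtain ⟨δ, hδ, H⟩ := hφ (ε / 2) (by positivity)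
  have hc : 0 < min (ε / 4) (δ * ε / 16) := by positivity
  refine ⟨min (ε / 4) (δ * ε / 16), hc, fun x y hx hy hxy => ?_⟩
  have d1 : ‖x - y‖ < ε / 4 := lt_of_lt_of_le hxy (min_le_left _ _)
  have d2 : ‖x - y‖ < δ * ε / 16 := lt_of_lt_of_le hxy (min_le_right _ _)
  have hd : |‖x‖ - ‖y‖| ≤ ‖x - y‖ := abs_norm_sub_norm_le _ _
  have hd1 := abs_le.mp hd
  by_cases hs : ‖x‖ ≤ ε / 4
  · calc ‖rad φ x - rad φ y‖ ≤ ‖rad φ x‖ + ‖rad φ y‖ := norm_sub_le _ _
      _ = ‖x‖ + ‖y‖ := by rw [rad_norm, rad_norm]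
      _ < ε := by linarith [hd1.1]
  · push Not at hs
    by_cases hy0 : y = 0
    · subst hy0
      rw [sub_zero] at d1
      linarith
    have hx0 : x ≠ 0 := by
      intro h; rw [h, norm_zero] at hs; linarith
    obtain ⟨u, hu⟩ := exists_polar x hx0
    obtain ⟨v, hv⟩ := exists_polar y hy0
    have h1 : rad φ x = ‖x‖ • (φ u : F) := by
      conv_lhs => rw [hu]
      exact rad_smul φ _ (norm_nonneg _) u
    have h2 : rad φ y = ‖y‖ • (φ v : F) := by
      conv_lhs => rw [hv]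
      exact rad_smul φ _ (norm_nonneg _) v
    have nu : ‖(u : E)‖ = 1 := by simpa using u.2
    have nv : ‖(v : E)‖ = 1 := by simpa using v.2
    have nfu : ‖(φ u : F)‖ = 1 := by simpa using (φ u).2
    have nfv : ‖(φ v : F)‖ = 1 := by simpa using (φ v).2
    have hxp : 0 < ‖x‖ := by linarith
    have huv : dist u v < δ := by
      rw [Subtype.dist_eq, dist_eq_norm]
      have e1 : ‖x‖ • ((u : E) - v) = (x - y) - (‖x‖ - ‖y‖) • (v : E) := by
        rw [smul_sub, sub_smul, ← hu, ← hv]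
        abel
      have e2 : ‖x‖ * ‖(u : E) - v‖ ≤ ‖x - y‖ + ‖x - y‖ := by
        calc ‖x‖ * ‖(u : E) - v‖ = ‖‖x‖ • ((u : E) - v)‖ := by rw [norm_smul, norm_norm]
          _ = ‖(x - y) - (‖x‖ - ‖y‖) • (v : E)‖ := by rw [e1]
          _ ≤ ‖x - y‖ + ‖(‖x‖ - ‖y‖) • (v : E)‖ := norm_sub_le _ _
          _ ≤ ‖x - y‖ + ‖x - y‖ := by
            rw [norm_smul, nv, mul_one, Real.norm_eq_abs]
            gcongr
      by_contra hcon
      push Not at hcon
      have : ε / 4 * δ ≤ ‖x‖ * ‖(u : E) - v‖ := by gcongr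
      nlinarith
    have h3 := H huv
    rw [Subtype.dist_eq, dist_eq_norm] at h3
    have e3 : ‖x‖ • (φ u : F) - ‖y‖ • (φ v : F)
        = ‖x‖ • ((φ u : F) - φ v) + (‖x‖ - ‖y‖) • (φ v : F) := by
      rw [smul_sub, sub_smul]; abel
    rw [h1, h2, e3]
    calc ‖‖x‖ • ((φ u : F) - φ v) + (‖x‖ - ‖y‖) • (φ v : F)‖
        ≤ ‖‖x‖ • ((φ u : F) - φ v)‖ + ‖(‖x‖ - ‖y‖) • (φ v : F)‖ := norm_add_le _ _
      _ = ‖x‖ * ‖(φ u : F) - φ v‖ + |‖x‖ - ‖y‖| := by
        rw [norm_smul, norm_smul, nfv, norm_norm, mul_one, Real.norm_eq_abs]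
      _ ≤ 1 * ‖(φ u : F) - φ v‖ + ‖x - y‖ := by gcongr
      _ < ε := by linarith

lemma HU_of_sphere
    (h : Nonempty (UniformEquiv (Metric.sphere (0 : E) 1) (Metric.sphere (0 : F) 1))) :
    HU E F := by
  obtain ⟨e⟩ := h
  exact ⟨rad e.toFun, rad e.invFun, rad_inv _ _ (fun u => e.left_inv u),
    rad_inv _ _ (fun u => e.right_inv u), rad_PH _, rad_PH _,
    rad_UB _ e.uniformContinuous_toFun, rad_UB _ e.uniformContinuous_invFun⟩

end basic

section uc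

lemma uc_lemma {Z : Type} [NormedAddCommGroup Z] [NormedSpace ℝ Z] [UniformConvexSpace Z]
    (ε R : ℝ) (hε : 0 < ε) (hR : 0 ≤ R) :
    ∃ δ : ℝ, 0 < δ ∧ ∀ r : ℝ, 0 ≤ r → r ≤ R → ∀ x y : Z, ‖x‖ ≤ r + δ → ‖y‖ ≤ r + δ →
      2 * r ≤ ‖x + y‖ → ‖x - y‖ < ε := by
  obtain ⟨δ₁, hδ₁, H⟩ := exists_forall_closed_ball_dist_add_le_two_sub Z
    (ε := ε / (R + 1)) (by positivity)
  refine ⟨min 1 (ε * δ₁ / 8), by positivity, fun r hr hrR x y hx hy hxy => ?_⟩
  set δ := min 1 (ε * δ₁ / 8) with hδ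
  have d1 : δ ≤ 1 := min_le_left _ _
  have d2 : δ ≤ ε * δ₁ / 8 := min_le_right _ _
  have d0 : 0 < δ := by positivity
  by_contra hcon
  push Not at hcon
  have h1 : ‖x - y‖ ≤ ‖x‖ + ‖y‖ := norm_sub_le _ _
  have hr' : ε / 2 ≤ r + δ := by linarith
  have hp : 0 < r + δ := by linarith
  have nx : ‖(r + δ)⁻¹ • x‖ ≤ 1 := by
    rw [norm_smul, Real.norm_of_nonneg (by positivity), inv_mul_le_iff₀ hp, mul_one]; exact hx
  have ny : ‖(r + δ)⁻¹ • y‖ ≤ 1 := by
    rw [norm_smul, Real.norm_of_nonneg (by positivity), inv_mul_le_iff₀ hp, mul_one]; exact hy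
  have nd : ε / (R + 1) ≤ ‖(r + δ)⁻¹ • x - (r + δ)⁻¹ • y‖ := by
    rw [← smul_sub, norm_smul, Real.norm_of_nonneg (by positivity), inv_mul_eq_div]
    gcongr
  have h2 := H nx ny nd
  rw [← smul_add, norm_smul, Real.norm_of_nonneg (by positivity), inv_mul_le_iff₀ hp] at h2
  have h3 : ε / 2 * δ₁ ≤ (r + δ) * δ₁ := by gcongr
  nlinarith

variable {X Z : Type} [NormedAddCommGroup X] [NormedSpace ℝ X] [CompleteSpace X]
  [NormedAddCommGroup Z] [NormedSpace ℝ Z] [UniformConvexSpace Z] (e : X →L[ℝ] Z)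
  (c : ℝ) (hc : 0 < c) (hec : ∀ x, c * ‖x‖ ≤ ‖e x‖)
  (Y : Submodule ℝ X) [hY : IsClosed (Y : Set X)]

/-- minimiser of the renorming in a coset -/
def IsMin (w : X ⧸ Y) (x : X) : Prop :=
  (Submodule.Quotient.mk x : X ⧸ Y) = w ∧
    ∀ x' : X, (Submodule.Quotient.mk x' : X ⧸ Y) = w → ‖e x‖ ≤ ‖e x'‖

omit [CompleteSpace X] hY in
lemma half_mem {w w' : X ⧸ Y} {x x' : X} (h : (Submodule.Quotient.mk x : X ⧸ Y) = w)
    (h' : (Submodule.Quotient.mk x' : X ⧸ Y) = w') :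
    (Submodule.Quotient.mk ((1/2 : ℝ) • (x + x')) : X ⧸ Y) = (1/2 : ℝ) • (w + w') := by
  rw [Submodule.Quotient.mk_smul, Submodule.Quotient.mk_add, h, h']

omit [CompleteSpace X] [UniformConvexSpace Z] in
lemma half_norm (x x' : X) : ‖e ((1/2 : ℝ) • (x + x'))‖ = ‖e x + e x'‖ / 2 := by
  rw [map_smul, map_add, norm_smul]
  norm_num
  ring

omit [CompleteSpace X] hY in
lemma half_self (w : X ⧸ Y) : (1/2 : ℝ) • (w + w) = w := by
  rw [← two_smul ℝ w, smul_smul]; norm_num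

include hY hc hec in
lemma exists_isMin (w : X ⧸ Y) : ∃ x, IsMin e Y w x := by
  set S : Set ℝ := (fun x : X => ‖e x‖) '' {x | (Submodule.Quotient.mk x : X ⧸ Y) = w} with hS
  have hne : S.Nonempty := by
    obtain ⟨x, hx⟩ := Submodule.Quotient.mk_surjective Y w
    exact ⟨_, x, hx, rfl⟩
  have hbd : BddBelow S := ⟨0, by rintro _ ⟨x, _, rfl⟩; exact norm_nonneg _⟩
  set m := sInf S with hm
  have m_le : ∀ x : X, (Submodule.Quotient.mk x : X ⧸ Y) = w → m ≤ ‖e x‖ :=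
    fun x hx => csInf_le hbd ⟨x, hx, rfl⟩
  have m0 : 0 ≤ m := le_csInf hne (by rintro _ ⟨x, _, rfl⟩; exact norm_nonneg _)
  have happ : ∀ n : ℕ, ∃ x : X, (Submodule.Quotient.mk x : X ⧸ Y) = w ∧
      ‖e x‖ < m + 1 / ((n : ℝ) + 1) := by
    intro n
    obtain ⟨_, ⟨x, hx, rfl⟩, hlt⟩ := exists_lt_of_csInf_lt hne
      (show sInf S < m + 1 / ((n : ℝ) + 1) by
        have : (0 : ℝ) < 1 / ((n : ℝ) + 1) := by positivity
        linarith)
    exact ⟨x, hx, hlt⟩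
  choose x hxw hxm using happ
  have hC : CauchySeq x := by
    rw [Metric.cauchySeq_iff]
    intro ε hε
    obtain ⟨δ, hδ, H⟩ := uc_lemma (Z := Z) (c * ε) m (by positivity) m0
    obtain ⟨N, hN⟩ := exists_nat_one_div_lt hδ
    refine ⟨N, fun n hn k hk => ?_⟩
    rw [dist_eq_norm]
    have hb : ∀ j ≥ N, ‖e (x j)‖ ≤ m + δ := by
      intro j hj
      have h1 : 1 / ((j : ℝ) + 1) ≤ 1 / ((N : ℝ) + 1) := by
        have : (N : ℝ) ≤ j := by exact_mod_cast hj
        gcongr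
      have := hxm j
      linarith
    have h2 := m_le _ ((half_mem Y (hxw n) (hxw k)).trans (half_self Y w))
    rw [half_norm] at h2
    have h3 := H m m0 le_rfl _ _ (hb n hn) (hb k hk) (by linarith)
    rw [← map_sub] at h3
    have h4 := (hec (x n - x k)).trans_lt h3
    exact lt_of_mul_lt_mul_left h4 hc.le
  obtain ⟨z, hz⟩ := cauchySeq_tendsto_of_complete hC
  have hmk : (Submodule.Quotient.mk z : X ⧸ Y) = w := by
    rw [← hxw 0, Submodule.Quotient.eq]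
    have ht : Filter.Tendsto (fun n => x n - x 0) Filter.atTop (nhds (z - x 0)) :=
      hz.sub_const _
    refine hY.mem_of_tendsto ht (Filter.Eventually.of_forall fun n => ?_)
    have : (Submodule.Quotient.mk (x n) : X ⧸ Y) = Submodule.Quotient.mk (x 0) := by
      rw [hxw, hxw]
    exact (Submodule.Quotient.eq Y).1 this
  refine ⟨z, hmk, fun x' hx' => ?_⟩
  refine le_trans ?_ (m_le x' hx')
  have hl : Filter.Tendsto (fun n : ℕ => m + 1 / ((n : ℝ) + 1)) Filter.atTop (nhds (m + 0)) :=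
    tendsto_const_nhds.add tendsto_one_div_add_atTop_nhds_zero_nat
  rw [add_zero] at hl
  have hez : Filter.Tendsto (fun n => ‖e (x n)‖) Filter.atTop (nhds ‖e z‖) :=
    ((e.continuous.tendsto z).comp hz).norm
  exact le_of_tendsto_of_tendsto hez hl (Filter.Eventually.of_forall fun n => (hxm n).le)

include hc hec in
omit [CompleteSpace X] hY in
lemma isMin_unique {w : X ⧸ Y} {x x' : X} (h : IsMin e Y w x) (h' : IsMin e Y w x') : x = x' := by
  have hn : ‖e x‖ = ‖e x'‖ := le_antisymm (h.2 _ h'.1) (h'.2 _ h.1)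
  have key : ∀ ε : ℝ, 0 < ε → ‖e x - e x'‖ < ε := by
    intro ε hε
    obtain ⟨δ, hδ, H⟩ := uc_lemma (Z := Z) ε ‖e x‖ hε (norm_nonneg _)
    refine H ‖e x‖ (norm_nonneg _) le_rfl _ _ (by linarith) (by linarith) ?_
    have h2 := h.2 _ ((half_mem Y h.1 h'.1).trans (half_self Y w))
    rw [half_norm] at h2
    linarith
  have h0 : ‖e x - e x'‖ = 0 := by
    by_contra hne
    have := key _ (lt_of_le_of_ne (norm_nonneg _) (Ne.symm hne))
    exact lt_irrefl _ this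
  rw [← map_sub] at h0
  have h5 := hec (x - x')
  rw [h0] at h5
  have h6 : ‖x - x'‖ ≤ 0 := by
    by_contra hcon
    push Not at hcon
    have : 0 < c * ‖x - x'‖ := by positivity
    linarith
  exact sub_eq_zero.1 (norm_le_zero_iff.1 h6)

omit [CompleteSpace X] [UniformConvexSpace Z] hY in
lemma isMin_smul {w : X ⧸ Y} {x : X} (h : IsMin e Y w x) (t : ℝ) (ht : 0 ≤ t) :
    IsMin e Y (t • w) (t • x) := by
  refine ⟨by rw [Submodule.Quotient.mk_smul, h.1], fun x' hx' => ?_⟩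
  rcases ht.eq_or_lt with h0 | h0
  · subst h0; simp
  have h1 : (Submodule.Quotient.mk (t⁻¹ • x') : X ⧸ Y) = w := by
    rw [Submodule.Quotient.mk_smul, hx', smul_smul, inv_mul_cancel₀ h0.ne', one_smul]
  have h2 := h.2 _ h1
  rw [map_smul, norm_smul, Real.norm_of_nonneg (by positivity), inv_mul_eq_div,
    le_div_iff₀ h0] at h2
  rw [map_smul, norm_smul, Real.norm_of_nonneg ht]
  linarith

/-- the section -/
noncomputable def sec (w : X ⧸ Y) : X := Classical.choose (exists_isMin e c hc hec Y w)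

lemma sec_isMin (w : X ⧸ Y) : IsMin e Y w (sec e c hc hec Y w) :=
  Classical.choose_spec (exists_isMin e c hc hec Y w)

lemma sec_mk (w : X ⧸ Y) : (Submodule.Quotient.mk (sec e c hc hec Y w) : X ⧸ Y) = w := (sec_isMin e c hc hec Y w).1

lemma sec_smul (t : ℝ) (ht : 0 ≤ t) (w : X ⧸ Y) : sec e c hc hec Y (t • w) = t • sec e c hc hec Y w :=
  isMin_unique e c hc hec Y (sec_isMin e c hc hec Y _)
    (isMin_smul e Y (sec_isMin e c hc hec Y w) t ht)

lemma sec_le (w : X ⧸ Y) : ‖e (sec e c hc hec Y w)‖ ≤ (‖e‖ + 1) * ‖w‖ := by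
  refine le_of_forall_pos_le_add fun η hη => ?_
  have hC : 0 < ‖e‖ + 1 := by positivity
  obtain ⟨x, hx, hlt⟩ := Submodule.Quotient.norm_mk_lt w
    (ε := η / (‖e‖ + 1)) (by positivity)
  calc ‖e (sec e c hc hec Y w)‖ ≤ ‖e x‖ := (sec_isMin e c hc hec Y w).2 x hx
    _ ≤ ‖e‖ * ‖x‖ := e.le_opNorm x
    _ ≤ (‖e‖ + 1) * ‖x‖ := by nlinarith [norm_nonneg x]
    _ ≤ (‖e‖ + 1) * (‖w‖ + η / (‖e‖ + 1)) := by gcongr
    _ = (‖e‖ + 1) * ‖w‖ + η := by field_simp

lemma sec_add_le (w w' : X ⧸ Y) :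
    ‖e (sec e c hc hec Y (w + w'))‖ ≤ ‖e (sec e c hc hec Y w)‖ + ‖e (sec e c hc hec Y w')‖ := by
  refine ((sec_isMin e c hc hec Y (w + w')).2 (sec e c hc hec Y w + sec e c hc hec Y w') ?_).trans ?_
  · rw [Submodule.Quotient.mk_add, sec_mk, sec_mk]
  · rw [map_add]; exact norm_add_le _ _

lemma sec_UB : UB (sec e c hc hec Y) := by
  intro ε hε
  set C := ‖e‖ + 1 with hCdef
  set D := c⁻¹ with hDdef
  have hC : 0 < C := by positivity
  have hD : 0 < D := by positivity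
  obtain ⟨δ, hδ, H⟩ := uc_lemma (Z := Z) (ε / D) C (by positivity) hC.le
  refine ⟨δ / C, by positivity, fun w w' hw hw' hww => ?_⟩
  have hr : ‖e (sec e c hc hec Y ((1/2 : ℝ) • (w + w')))‖ ≤ C := by
    refine (sec_le e c hc hec Y _).trans ?_
    rw [norm_smul]
    have : ‖w + w'‖ ≤ 2 := (norm_add_le _ _).trans (by linarith)
    have h3 : ‖(1/2 : ℝ)‖ = 1/2 := by norm_num
    rw [h3]
    nlinarith
  have hdiff : ∀ a b : X ⧸ Y, ‖a - b‖ < δ / C →
      ‖e (sec e c hc hec Y a)‖ ≤ ‖e (sec e c hc hec Y ((1/2 : ℝ) • (a + b)))‖ + δ := by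
    intro a b hab
    have h1 : a = (1/2 : ℝ) • (a + b) + (1/2 : ℝ) • (a - b) := by
      rw [← smul_add]
      have : a + b + (a - b) = (2 : ℝ) • a := by rw [two_smul]; abel
      rw [this, smul_smul]; norm_num
    have h2 : ‖e (sec e c hc hec Y a)‖ ≤ ‖e (sec e c hc hec Y ((1/2 : ℝ) • (a + b)))‖ +
        ‖e (sec e c hc hec Y ((1/2 : ℝ) • (a - b)))‖ := by
      conv_lhs => rw [h1]
      exact sec_add_le e c hc hec Y _ _
    have h3 : ‖e (sec e c hc hec Y ((1/2 : ℝ) • (a - b)))‖ ≤ δ := by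
      refine (sec_le e c hc hec Y _).trans ?_
      rw [norm_smul]
      have h4 : ‖(1/2 : ℝ)‖ = 1/2 := by norm_num
      rw [h4]
      rw [lt_div_iff₀ hC] at hab
      have := norm_nonneg (a - b)
      nlinarith
    linarith
  have h5 : 2 * ‖e (sec e c hc hec Y ((1/2 : ℝ) • (w + w')))‖ ≤ ‖e (sec e c hc hec Y w) + e (sec e c hc hec Y w')‖ := by
    have := (sec_isMin e c hc hec Y ((1/2 : ℝ) • (w + w'))).2 _
      (half_mem Y (sec_mk e c hc hec Y w) (sec_mk e c hc hec Y w'))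
    rw [half_norm] at this
    linarith
  have h6 := H _ (norm_nonneg _) hr _ _ (hdiff w w' hww)
    (by
      have := hdiff w' w (by rw [norm_sub_rev]; exact hww)
      rwa [add_comm w' w] at this) h5
  have h7 : ‖sec e c hc hec Y w - sec e c hc hec Y w'‖ ≤ D * ‖e (sec e c hc hec Y w) - e (sec e c hc hec Y w')‖ := by
    have h8 := hec (sec e c hc hec Y w - sec e c hc hec Y w')
    rw [map_sub] at h8
    rw [hDdef, ← div_eq_inv_mul, le_div_iff₀ hc]
    linarith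
  calc ‖sec e c hc hec Y w - sec e c hc hec Y w'‖ ≤ D * ‖e (sec e c hc hec Y w) - e (sec e c hc hec Y w')‖ := h7
    _ < D * (ε / D) := by gcongr
    _ = ε := by field_simp

end uc

section split

variable {X : Type} [NormedAddCommGroup X] [NormedSpace ℝ X]
  (Y : Submodule ℝ X) [hY : IsClosed (Y : Set X)]

lemma HU_split (s : X ⧸ Y → X) (hs : ∀ w, (Submodule.Quotient.mk (s w) : X ⧸ Y) = w)
    (hh : ∀ t : ℝ, 0 ≤ t → ∀ w, s (t • w) = t • s w) (hu : UB s) : HU X ((X ⧸ Y) × Y) := by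
  have hmem : ∀ x : X, x - s (Submodule.Quotient.mk x) ∈ Y := by
    intro x
    rw [← Submodule.Quotient.eq, hs]
  refine ⟨fun x => (Submodule.Quotient.mk x, ⟨x - s (Submodule.Quotient.mk x), hmem x⟩),
    fun p => s p.1 + (p.2 : X), ?_, ?_, ?_, ?_, ?_, ?_⟩
  · intro x; simp
  · rintro ⟨w, y⟩
    have h1 : (Submodule.Quotient.mk (s w + (y : X)) : X ⧸ Y) = w := by
      rw [Submodule.Quotient.mk_add, hs, (Submodule.Quotient.mk_eq_zero Y).2 y.2, add_zero]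
    refine Prod.ext h1 ?_
    apply Subtype.ext
    simp only [h1]
    abel
  · intro t ht x
    refine Prod.ext ?_ ?_
    · simp
    · apply Subtype.ext
      simp only [Submodule.Quotient.mk_smul, hh t ht, Prod.smul_snd, Submodule.coe_smul, smul_sub]
  · intro t ht p
    simp only [Prod.smul_fst, Prod.smul_snd, hh t ht, Submodule.coe_smul, smul_add]
  · intro ε hε
    obtain ⟨δ, hδ, H⟩ := hu (ε / 2) (by positivity)
    refine ⟨min δ (ε / 2), by positivity, fun x y hx hy hxy => ?_⟩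
    have d1 := lt_of_lt_of_le hxy (min_le_left _ _)
    have d2 := lt_of_lt_of_le hxy (min_le_right _ _)
    have mkle : ∀ z : X, ‖(Submodule.Quotient.mk z : X ⧸ Y)‖ ≤ ‖z‖ :=
      fun z => Submodule.Quotient.norm_mk_le Y z
    have hsub : (Submodule.Quotient.mk x : X ⧸ Y) - Submodule.Quotient.mk y
        = Submodule.Quotient.mk (x - y) := (Submodule.Quotient.mk_sub Y).symm
    have h1 : ‖(Submodule.Quotient.mk x : X ⧸ Y) - Submodule.Quotient.mk y‖ ≤ ‖x - y‖ := by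
      rw [hsub]; exact mkle _
    have h2 := H _ _ ((mkle x).trans hx) ((mkle y).trans hy) (lt_of_le_of_lt h1 d1)
    rw [Prod.norm_def, max_lt_iff]
    constructor
    · exact lt_of_le_of_lt h1 (by linarith)
    · rw [Prod.snd_sub, ← Submodule.norm_coe, Submodule.coe_sub]
      simp only
      have e1 : x - s (Submodule.Quotient.mk x) - (y - s (Submodule.Quotient.mk y))
          = (x - y) - (s (Submodule.Quotient.mk x) - s (Submodule.Quotient.mk y)) := by abel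
      rw [e1]
      calc _ ≤ ‖x - y‖ + ‖s (Submodule.Quotient.mk x) - s (Submodule.Quotient.mk y)‖ :=
            norm_sub_le _ _
        _ < ε := by linarith
  · intro ε hε
    obtain ⟨δ, hδ, H⟩ := hu (ε / 2) (by positivity)
    refine ⟨min δ (ε / 2), by positivity, fun p q hp hq hpq => ?_⟩
    have d1 := lt_of_lt_of_le hpq (min_le_left _ _)
    have d2 := lt_of_lt_of_le hpq (min_le_right _ _)
    rw [Prod.norm_def] at hp hq d1 d2
    have h2 := H p.1 q.1 ((le_max_left _ _).trans hp) ((le_max_left _ _).trans hq)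
      (lt_of_le_of_lt (le_max_left _ _) d1)
    have h3 : ‖(p.2 : X) - (q.2 : X)‖ < ε / 2 := by
      have := lt_of_le_of_lt (le_max_right _ _) d2
      rwa [Prod.snd_sub, ← Submodule.norm_coe, Submodule.coe_sub] at this
    have e1 : s p.1 + (p.2 : X) - (s q.1 + (q.2 : X)) = (s p.1 - s q.1) + ((p.2 : X) - q.2) := by
      abel
    simp only
    rw [e1]
    calc _ ≤ ‖s p.1 - s q.1‖ + ‖(p.2 : X) - q.2‖ := norm_add_le _ _
      _ < ε := by linarith

lemma main_of_split (h : HU X ((X ⧸ Y) × Y)) (hh : HU (Y × ℝ) Y ∨ HU ((X ⧸ Y) × ℝ) (X ⧸ Y)) :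
    HU (X × ℝ) X := by
  have h1 : HU (X × ℝ) (((X ⧸ Y) × Y) × ℝ) := HU.prod h HU.refl
  have h2 : HU (((X ⧸ Y) × Y) × ℝ) ((X ⧸ Y) × (Y × ℝ)) :=
    HU_of_cle (ContinuousLinearEquiv.prodAssoc ℝ (X ⧸ Y) Y ℝ)
  rcases hh with hh | hh
  · have h3 : HU ((X ⧸ Y) × (Y × ℝ)) ((X ⧸ Y) × Y) := HU.prod HU.refl hh
    exact ((h1.trans h2).trans h3).trans h.symm
  · have h3 : HU ((X ⧸ Y) × (Y × ℝ)) ((X ⧸ Y) × (ℝ × Y)) :=
      HU.prod HU.refl (HU_of_cle (ContinuousLinearEquiv.prodComm ℝ Y ℝ))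
    have h4 : HU ((X ⧸ Y) × (ℝ × Y)) (((X ⧸ Y) × ℝ) × Y) :=
      HU_of_cle (ContinuousLinearEquiv.prodAssoc ℝ (X ⧸ Y) ℝ Y).symm
    have h5 : HU (((X ⧸ Y) × ℝ) × Y) ((X ⧸ Y) × Y) := HU.prod hh HU.refl
    exact ((((h1.trans h2).trans h3).trans h4).trans h5).trans h.symm

end split

end Pool.Agent.MP0402b8
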