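import Pool.Agent.MP0402b8.L2

set_option autoImplicit false

namespace Pool.Agent.MP0402b8.Cons

section
variable {A B : Type} [NormedAddCommGroup A] [NormedSpace ℝ A] [NormedAddCommGroup B]
  [NormedSpace ℝ B]

/-- sequence with a new first term -/
def consSeq (a : A) (x : ℕ → A) : ℕ → A
  | 0 => a
  | n + 1 => x n

/-- shift -/
def shL (x : l2 A) : l2 A := ⟨fun n => x (n + 1), (mem_l2_iff _).2
  ((summable_nat_add_iff (f := fun n => ‖x n‖ ^ 2) 1).2 (l2_summable x))⟩

/-- new first term -/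
def cnL (a : A) (x : l2 A) : l2 A := ⟨consSeq a x, (mem_l2_iff _).2
  ((summable_nat_add_iff (f := fun n => ‖consSeq a x n‖ ^ 2) 1).1 (l2_summable x))⟩

omit [NormedSpace ℝ A] in
lemma shL_apply (x : l2 A) (n : ℕ) : shL x n = x (n + 1) := rfl

omit [NormedSpace ℝ A] in
lemma cnL_zero (a : A) (x : l2 A) : cnL a x 0 = a := rfl

omit [NormedSpace ℝ A] in
lemma cnL_succ (a : A) (x : l2 A) (n : ℕ) : cnL a x (n + 1) = x n := rfl

omit [NormedSpace ℝ A] in
lemma shL_norm (x : l2 A) : ‖shL x‖ ≤ ‖x‖ := by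
  rw [← sq_le_sq₀ (norm_nonneg _) (norm_nonneg _), l2_norm_sq, l2_norm_sq,
    (l2_summable x).tsum_eq_zero_add]
  simp only [shL_apply]
  have : 0 ≤ ‖x 0‖ ^ 2 := by positivity
  linarith

omit [NormedSpace ℝ A] in
lemma cnL_norm (a : A) (x : l2 A) : ‖cnL a x‖ ≤ 2 * ‖((a, x) : A × l2 A)‖ := by
  rw [← sq_le_sq₀ (norm_nonneg _) (by positivity), l2_norm_sq,
    (l2_summable (cnL a x)).tsum_eq_zero_add]
  simp only [cnL_succ, cnL_zero]
  rw [← l2_norm_sq]
  have h1 : ‖a‖ ≤ ‖((a, x) : A × l2 A)‖ := norm_fst_le (a, x)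
  have h2 : ‖x‖ ≤ ‖((a, x) : A × l2 A)‖ := norm_snd_le (a, x)
  have h3 := norm_nonneg a
  have h4 := norm_nonneg x
  nlinarith

omit [NormedSpace ℝ A] in
lemma l2_ext {x y : l2 A} (h : ∀ n, x n = y n) : x = y := lp.ext (funext h)

lemma l2_cons : HU (l2 A) (A × l2 A) := by
  refine ⟨fun x => (x 0, shL x), fun p => cnL p.1 p.2, ?_, ?_, ?_, ?_, ?_, ?_⟩
  · intro x
    apply l2_ext
    intro n
    cases n with
    | zero => rfl
    | succ n => rfl
  · intro p
    refine Prod.ext rfl ?_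
    apply l2_ext
    intro n
    rfl
  · intro t _ x
    refine Prod.ext ?_ ?_
    · simp
    · apply l2_ext
      intro n
      simp [shL_apply]
  · intro t _ p
    apply l2_ext
    intro n
    cases n with
    | zero => simp [cnL_zero]
    | succ n => simp [cnL_succ]
  · apply UB_of_lip _ 1
    intro x y
    have e : ((x 0, shL x) : A × l2 A) - (y 0, shL y) = ((x - y) 0, shL (x - y)) := by
      refine Prod.ext ?_ ?_
      · simp
      · apply l2_ext
        intro n
        simp [shL_apply]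
    show ‖((x 0, shL x) : A × l2 A) - (y 0, shL y)‖ ≤ 1 * ‖x - y‖
    rw [e, one_mul, Prod.norm_def]
    exact max_le (lp.norm_apply_le_norm (two_ne_zero) (x - y) 0) (shL_norm _)
  · apply UB_of_lip _ 2
    intro p q
    have e : cnL p.1 p.2 - cnL q.1 q.2 = cnL (p - q).1 (p - q).2 := by
      apply l2_ext
      intro n
      cases n with
      | zero => simp [cnL_zero]
      | succ n => simp [cnL_succ]
    show ‖cnL p.1 p.2 - cnL q.1 q.2‖ ≤ 2 * ‖p - q‖
    rw [e]
    exact cnL_norm _ _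

end

end Pool.Agent.MP0402b8.Cons
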