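import Pool.Agent.MP0402b8.L2

set_option autoImplicit false

namespace Pool.Agent.MP0402b8.Double

section
variable {A B : Type} [NormedAddCommGroup A] [NormedSpace ℝ A] [NormedAddCommGroup B]
  [NormedSpace ℝ B]

omit [NormedSpace ℝ A] in
lemma l2_double_even (x : ℕ → A) (h : Memℓp x 2) : Memℓp (fun n => x (2 * n)) 2 := by
  rw [mem_l2_iff] at h ⊢
  exact h.comp_injective (i := fun n : ℕ => 2 * n) (fun a b hab => by
    have : 2 * a = 2 * b := hab
    omega)

omit [NormedSpace ℝ A] in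
lemma l2_double_odd (x : ℕ → A) (h : Memℓp x 2) : Memℓp (fun n => x (2 * n + 1)) 2 := by
  rw [mem_l2_iff] at h ⊢
  exact h.comp_injective (i := fun n : ℕ => 2 * n + 1) (fun a b hab => by
    have : 2 * a + 1 = 2 * b + 1 := hab
    omega)

omit [NormedSpace ℝ A] in
lemma l2_double_even0 (y z : ℕ → A) (n : ℕ) :
    (if (2 * n) % 2 = 0 then y ((2 * n) / 2) else z ((2 * n) / 2)) = y n := by
  rw [if_pos (by omega)]
  congr 1
  omega

omit [NormedSpace ℝ A] in
lemma l2_double_odd0 (y z : ℕ → A) (n : ℕ) :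
    (if (2 * n + 1) % 2 = 0 then y ((2 * n + 1) / 2) else z ((2 * n + 1) / 2)) = z n := by
  rw [if_neg (by omega)]
  congr 1
  omega

omit [NormedSpace ℝ A] in
lemma l2_double_hs (y z : ℕ → A) (hy : Memℓp y 2) (hz : Memℓp z 2) :
    HasSum (fun n => ‖(if n % 2 = 0 then y (n / 2) else z (n / 2))‖ ^ 2)
      ((∑' n, ‖y n‖ ^ 2) + ∑' n, ‖z n‖ ^ 2) := by
  rw [mem_l2_iff] at hy hz
  refine HasSum.even_add_odd ?_ ?_
  · have e : (fun k => ‖(if (2 * k) % 2 = 0 then y ((2 * k) / 2) else z ((2 * k) / 2))‖ ^ 2) =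
        fun k => ‖y k‖ ^ 2 := by
      funext k; rw [l2_double_even0]
    rw [e]; exact hy.hasSum
  · have e : (fun k => ‖(if (2 * k + 1) % 2 = 0 then y ((2 * k + 1) / 2)
        else z ((2 * k + 1) / 2))‖ ^ 2) = fun k => ‖z k‖ ^ 2 := by
      funext k; rw [l2_double_odd0]
    rw [e]; exact hz.hasSum

omit [NormedSpace ℝ A] in
lemma l2_double_mix (y z : ℕ → A) (hy : Memℓp y 2) (hz : Memℓp z 2) :
    Memℓp (fun n => if n % 2 = 0 then y (n / 2) else z (n / 2)) 2 := by
  rw [mem_l2_iff]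
  exact (l2_double_hs y z hy hz).summable

/-- the splitting map -/
def l2_double_f (x : l2 A) : l2 A × l2 A :=
  (⟨fun n => x (2 * n), l2_double_even _ (lp.memℓp x)⟩,
   ⟨fun n => x (2 * n + 1), l2_double_odd _ (lp.memℓp x)⟩)

/-- the merging map -/
def l2_double_g (p : l2 A × l2 A) : l2 A :=
  ⟨fun n => if n % 2 = 0 then p.1 (n / 2) else p.2 (n / 2),
    l2_double_mix _ _ (lp.memℓp p.1) (lp.memℓp p.2)⟩

lemma l2_double : HU (l2 A) (l2 A × l2 A) := by
  refine ⟨l2_double_f, l2_double_g, ?_, ?_, ?_, ?_, ?_, ?_⟩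
  · intro x
    apply lp.ext
    funext n
    show (if n % 2 = 0 then x (2 * (n / 2)) else x (2 * (n / 2) + 1)) = x n
    split_ifs with h
    · exact congrArg (fun k : ℕ => (x : ℕ → A) k) (show 2 * (n / 2) = n by omega)
    · exact congrArg (fun k : ℕ => (x : ℕ → A) k) (show 2 * (n / 2) + 1 = n by omega)
  · rintro ⟨y, z⟩
    refine Prod.ext ?_ ?_
    · apply lp.ext
      funext n
      exact l2_double_even0 (fun n => y n) (fun n => z n) n
    · apply lp.ext
      funext n
      exact l2_double_odd0 (fun n => y n) (fun n => z n) n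
  · intro t _ x
    refine Prod.ext ?_ ?_ <;> exact lp.ext (funext fun n => rfl)
  · rintro t _ ⟨y, z⟩
    apply lp.ext
    funext n
    show (if n % 2 = 0 then t • y (n / 2) else t • z (n / 2)) =
      t • (if n % 2 = 0 then y (n / 2) else z (n / 2))
    split_ifs <;> rfl
  · refine UB_of_lip _ 1 fun x y => ?_
    rw [one_mul]
    have e : l2_double_f x - l2_double_f y = l2_double_f (x - y) := by
      refine Prod.ext ?_ ?_ <;> exact lp.ext (funext fun n => rfl)
    rw [e, Prod.norm_def]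
    set w := x - y
    refine max_le ?_ ?_
    · refine abs_le_of_sq_le_sq' ?_ (norm_nonneg _) |>.2
      rw [l2_norm_sq, l2_norm_sq]
      exact tsum_comp_le_tsum_of_inj (l2_summable w) (fun _ => by positivity)
        (i := fun n : ℕ => 2 * n) (fun a b hab => by
          have : 2 * a = 2 * b := hab
          omega)
    · refine abs_le_of_sq_le_sq' ?_ (norm_nonneg _) |>.2
      rw [l2_norm_sq, l2_norm_sq]
      exact tsum_comp_le_tsum_of_inj (l2_summable w) (fun _ => by positivity)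
        (i := fun n : ℕ => 2 * n + 1) (fun a b hab => by
          have : 2 * a + 1 = 2 * b + 1 := hab
          omega)
  · refine UB_of_lip _ 2 fun x y => ?_
    have e : l2_double_g x - l2_double_g y = l2_double_g (x - y) := by
      apply lp.ext
      funext n
      show (if n % 2 = 0 then x.1 (n / 2) else x.2 (n / 2)) -
        (if n % 2 = 0 then y.1 (n / 2) else y.2 (n / 2)) =
        (if n % 2 = 0 then (x.1 - y.1) (n / 2) else (x.2 - y.2) (n / 2))
      split_ifs <;> rfl
    rw [e]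
    set w := x - y
    have h1 : ‖l2_double_g w‖ ^ 2 = ‖w.1‖ ^ 2 + ‖w.2‖ ^ 2 := by
      rw [l2_norm_sq, l2_norm_sq, l2_norm_sq]
      exact (l2_double_hs (fun n => w.1 n) (fun n => w.2 n) (lp.memℓp w.1) (lp.memℓp w.2)).tsum_eq
    have h2 : ‖w.1‖ ≤ ‖w‖ := norm_fst_le w
    have h3 : ‖w.2‖ ≤ ‖w‖ := norm_snd_le w
    have h4 := norm_nonneg w
    have h5 := norm_nonneg w.1
    have h6 := norm_nonneg w.2
    refine abs_le_of_sq_le_sq' ?_ (by positivity) |>.2
    rw [h1]
    nlinarith

end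

end Pool.Agent.MP0402b8.Double
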