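import Pool.Agent.MP0402b8.L2

set_option autoImplicit false

namespace Pool.Agent.MP0402b8.Idm

section
variable {A : Type} [NormedAddCommGroup A] [NormedSpace ℝ A]

lemma summ2 (x : l2 (l2 A)) : Summable (fun p : ℕ × ℕ => ‖x p.1 p.2‖ ^ 2) := by
  rw [summable_prod_of_nonneg (fun p => by positivity)]
  refine ⟨fun i => l2_summable (x i), ?_⟩
  have : (fun i => ∑' j, ‖x i j‖ ^ 2) = fun i => ‖x i‖ ^ 2 := by
    funext i; exact (l2_norm_sq (x i)).symm
  simp only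
  rw [this]
  exact l2_summable x

/-- flatten -/
def fl (x : l2 (l2 A)) : l2 A := ⟨fun n => x (Nat.pairEquiv.symm n).1 (Nat.pairEquiv.symm n).2,
  (mem_l2_iff _).2 ((Nat.pairEquiv.symm.summable_iff (f := fun p : ℕ × ℕ => ‖x p.1 p.2‖ ^ 2)).2
    (summ2 x))⟩

lemma fl_norm (x : l2 (l2 A)) : ‖fl x‖ ^ 2 = ‖x‖ ^ 2 := by
  rw [l2_norm_sq, l2_norm_sq]
  have h1 : ∑' n, ‖fl x n‖ ^ 2 = ∑' p : ℕ × ℕ, ‖x p.1 p.2‖ ^ 2 :=
    Nat.pairEquiv.symm.tsum_eq (fun p : ℕ × ℕ => ‖x p.1 p.2‖ ^ 2)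
  rw [h1, (summ2 x).tsum_prod]
  congr 1
  funext i
  exact (l2_norm_sq (x i)).symm

lemma summ1 (y : l2 A) : Summable (fun p : ℕ × ℕ => ‖y (Nat.pairEquiv p)‖ ^ 2) :=
  (Nat.pairEquiv.summable_iff (f := fun n => ‖y n‖ ^ 2)).2 (l2_summable y)

/-- row -/
def row (y : l2 A) (i : ℕ) : l2 A := ⟨fun j => y (Nat.pairEquiv (i, j)), (mem_l2_iff _).2
  (((summable_prod_of_nonneg (fun p => by positivity)).1 (summ1 y)).1 i)⟩

/-- unflatten -/
def un (y : l2 A) : l2 (l2 A) := ⟨fun i => row y i, (mem_l2_iff _).2 (by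
  have h := ((summable_prod_of_nonneg (fun p => by positivity)).1 (summ1 y)).2
  have : (fun i => ‖row y i‖ ^ 2) = fun i => ∑' j, ‖y (Nat.pairEquiv (i, j))‖ ^ 2 := by
    funext i; exact l2_norm_sq (row y i)
  rw [this]
  exact h)⟩

lemma fl_un (y : l2 A) : fl (un y) = y := by
  apply lp.ext; funext n
  show y (Nat.pairEquiv ((Nat.pairEquiv.symm n).1, (Nat.pairEquiv.symm n).2)) = y n
  rw [Prod.mk.eta, Equiv.apply_symm_apply]

lemma un_fl (x : l2 (l2 A)) : un (fl x) = x := by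
  apply lp.ext; funext i
  apply lp.ext; funext j
  show x (Nat.pairEquiv.symm (Nat.pairEquiv (i, j))).1
    (Nat.pairEquiv.symm (Nat.pairEquiv (i, j))).2 = x i j
  rw [Equiv.symm_apply_apply]

lemma un_norm (y : l2 A) : ‖un y‖ ^ 2 = ‖y‖ ^ 2 := by
  rw [← fl_norm, fl_un]

lemma l2_idem : HU (l2 (l2 A)) (l2 A) := by
  refine ⟨fl, un, un_fl, fl_un, ?_, ?_, ?_, ?_⟩
  · intro t _ x
    apply lp.ext; funext n; rfl
  · intro t _ y
    apply lp.ext; funext n
    apply lp.ext; funext j; rfl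
  · apply UB_of_lip _ 1
    intro x y
    have e : fl x - fl y = fl (x - y) := by
      apply lp.ext; funext n; rfl
    rw [e, one_mul]
    exact (pow_le_pow_iff_left₀ (norm_nonneg _) (norm_nonneg _) two_ne_zero).1 (fl_norm _).le
  · apply UB_of_lip _ 1
    intro x y
    have e : un x - un y = un (x - y) := by
      apply lp.ext; funext n
      apply lp.ext; funext j; rfl
    rw [e, one_mul]
    exact (pow_le_pow_iff_left₀ (norm_nonneg _) (norm_nonneg _) two_ne_zero).1 (un_norm _).le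

end

end Pool.Agent.MP0402b8.Idm
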