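import Pool.Agent.MP0402b8.Base

set_option autoImplicit false

namespace Pool.Agent.MP0402b8

/-- square-summable sequences in `A` -/
abbrev l2 (A : Type) [NormedAddCommGroup A] : Type := lp (fun _ : ℕ => A) 2

lemma UB_of_lip {E F : Type} [NormedAddCommGroup E] [NormedAddCommGroup F] (f : E → F) (C : ℝ)
    (h : ∀ x y, ‖f x - f y‖ ≤ C * ‖x - y‖) : UB f := by
  intro ε hε
  refine ⟨ε / (|C| + 1), by positivity, fun x y _ _ hxy => ?_⟩
  rw [lt_div_iff₀ (by positivity)] at hxy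
  calc ‖f x - f y‖ ≤ C * ‖x - y‖ := h x y
    _ ≤ ‖x - y‖ * (|C| + 1) := by nlinarith [norm_nonneg (x - y), le_abs_self C]
    _ < ε := hxy

section
variable {A B : Type} [NormedAddCommGroup A] [NormedSpace ℝ A] [NormedAddCommGroup B]
  [NormedSpace ℝ B]

omit [NormedSpace ℝ A] in
lemma mem_l2_iff (x : ℕ → A) : Memℓp x 2 ↔ Summable (fun n => ‖x n‖ ^ 2) := by
  rw [memℓp_gen_iff (by norm_num)]
  simp

omit [NormedSpace ℝ A] in
lemma l2_summable (x : l2 A) : Summable (fun n => ‖x n‖ ^ 2) :=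
  (mem_l2_iff _).1 (lp.memℓp x)

omit [NormedSpace ℝ A] in
lemma l2_norm_sq (x : l2 A) : ‖x‖ ^ 2 = ∑' n, ‖x n‖ ^ 2 := by
  have := lp.norm_rpow_eq_tsum (p := 2) (by norm_num) x
  simpa using this

/-- pointwise inequality -/
lemma pt_ineq {f : A → B} (hf : PH f) (uf : UB f) (ε : ℝ) (hε : 0 < ε) :
    ∃ K : ℝ, 0 < K ∧ ∀ a b : A, ‖f a - f b‖ ^ 2 ≤ ε ^ 2 * (‖a‖ ^ 2 + ‖b‖ ^ 2) + K * ‖a - b‖ ^ 2 := by
  obtain ⟨C, hC, hb⟩ := bound_of hf uf
  obtain ⟨δ, hδ, H⟩ := uf ε hε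
  refine ⟨(2 * C / δ) ^ 2, by positivity, fun a b => ?_⟩
  set M := max ‖a‖ ‖b‖ with hM
  have ha : ‖a‖ ≤ M := le_max_left _ _
  have hbM : ‖b‖ ≤ M := le_max_right _ _
  have hM0 : 0 ≤ M := (norm_nonneg a).trans ha
  have hMsq : M ^ 2 ≤ ‖a‖ ^ 2 + ‖b‖ ^ 2 := by
    rcases max_choice ‖a‖ ‖b‖ with h | h
    · rw [hM, h]; nlinarith [sq_nonneg ‖b‖]
    · rw [hM, h]; nlinarith [sq_nonneg ‖a‖]
  rcases lt_or_ge ‖a - b‖ (δ * M) with h | h
  · have hMp : 0 < M := by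
      rcases hM0.eq_or_lt with h0 | h0
      · rw [← h0, mul_zero] at h
        exact absurd h (not_lt.2 (norm_nonneg _))
      · exact h0
    have n1 : ‖M⁻¹ • a‖ ≤ 1 := by
      rw [norm_smul, Real.norm_of_nonneg (by positivity), inv_mul_le_iff₀ hMp, mul_one]; exact ha
    have n2 : ‖M⁻¹ • b‖ ≤ 1 := by
      rw [norm_smul, Real.norm_of_nonneg (by positivity), inv_mul_le_iff₀ hMp, mul_one]; exact hbM
    have n3 := H _ _ n1 n2 (by
      rw [← smul_sub, norm_smul, Real.norm_of_nonneg (by positivity), inv_mul_lt_iff₀ hMp]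
      linarith)
    rw [hf _ (by positivity), hf _ (by positivity), ← smul_sub, norm_smul,
      Real.norm_of_nonneg (by positivity), inv_mul_lt_iff₀ hMp] at n3
    have n4 : ‖f a - f b‖ ^ 2 ≤ (M * ε) ^ 2 := by gcongr
    have n5 : 0 ≤ (2 * C / δ) ^ 2 * ‖a - b‖ ^ 2 := by positivity
    nlinarith [sq_nonneg ε]
  · have n1 : ‖f a - f b‖ ≤ 2 * C / δ * ‖a - b‖ := by
      calc ‖f a - f b‖ ≤ ‖f a‖ + ‖f b‖ := norm_sub_le _ _
        _ ≤ C * ‖a‖ + C * ‖b‖ := add_le_add (hb a) (hb b)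
        _ ≤ C * M + C * M := by gcongr
        _ = 2 * C / δ * (δ * M) := by field_simp; ring
        _ ≤ 2 * C / δ * ‖a - b‖ := by gcongr
    have n2 : ‖f a - f b‖ ^ 2 ≤ (2 * C / δ * ‖a - b‖) ^ 2 := by gcongr
    have n3 : 0 ≤ ε ^ 2 * (‖a‖ ^ 2 + ‖b‖ ^ 2) := by positivity
    nlinarith

/-- coordinatewise map -/
lemma map_mem {f : A → B} (hf : PH f) (uf : UB f) (x : l2 A) : Memℓp (fun n => f (x n)) 2 := by
  obtain ⟨C, hC, hb⟩ := bound_of hf uf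
  rw [mem_l2_iff]
  refine Summable.of_nonneg_of_le (fun n => by positivity) (fun n => ?_)
    ((l2_summable x).mul_left (C ^ 2))
  calc ‖f (x n)‖ ^ 2 ≤ (C * ‖x n‖) ^ 2 := by gcongr; exact hb _
    _ = C ^ 2 * ‖x n‖ ^ 2 := by ring

lemma map_UB {f : A → B} (hf : PH f) (uf : UB f) :
    UB (fun x : l2 A => (⟨fun n => f (x n), map_mem hf uf x⟩ : l2 B)) := by
  intro ε hε
  obtain ⟨K, hK, H⟩ := pt_ineq hf uf (ε / 2) (by positivity)
  refine ⟨min 1 (ε ^ 2 / (4 * K)), by positivity, fun x y hx hy hxy => ?_⟩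
  have d1 := lt_of_lt_of_le hxy (min_le_left _ _)
  have d2 := lt_of_lt_of_le hxy (min_le_right _ _)
  have hs1 := l2_summable x
  have hs2 := l2_summable y
  have hs3 := l2_summable (x - y)
  have e1 : ‖(⟨fun n => f (x n), map_mem hf uf x⟩ : l2 B)
      - ⟨fun n => f (y n), map_mem hf uf y⟩‖ ^ 2 ≤
      (ε / 2) ^ 2 * (‖x‖ ^ 2 + ‖y‖ ^ 2) + K * ‖x - y‖ ^ 2 := by
    rw [l2_norm_sq, l2_norm_sq x, l2_norm_sq y, l2_norm_sq (x - y), ← hs1.tsum_add hs2,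
      ← tsum_mul_left, ← tsum_mul_left, ← Summable.tsum_add ((hs1.add hs2).mul_left _)
        (hs3.mul_left _)]
    refine Summable.tsum_le_tsum (fun n => ?_) (l2_summable _)
      (((hs1.add hs2).mul_left _).add (hs3.mul_left _))
    exact H (x n) (y n)
  have hx2 : ‖x‖ ^ 2 ≤ 1 := by
    have := norm_nonneg x
    nlinarith
  have hy2 : ‖y‖ ^ 2 ≤ 1 := by
    have := norm_nonneg y
    nlinarith
  have hd : K * ‖x - y‖ ^ 2 ≤ ε ^ 2 / 4 := by
    have h0 := norm_nonneg (x - y)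
    have h1 : ‖x - y‖ ^ 2 ≤ ε ^ 2 / (4 * K) := by nlinarith
    calc K * ‖x - y‖ ^ 2 ≤ K * (ε ^ 2 / (4 * K)) := by gcongr
      _ = ε ^ 2 / 4 := by field_simp
  have hfin : ‖(⟨fun n => f (x n), map_mem hf uf x⟩ : l2 B)
      - ⟨fun n => f (y n), map_mem hf uf y⟩‖ ^ 2 < ε ^ 2 := by
    nlinarith [sq_nonneg ε, sq_pos_of_pos hε]
  exact lt_of_pow_lt_pow_left₀ 2 hε.le hfin

lemma l2_functor (h : HU A B) : HU (l2 A) (l2 B) := by
  obtain ⟨f, g, h1, h2, h3, h4, h5, h6⟩ := h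
  refine ⟨fun x => ⟨fun n => f (x n), map_mem h3 h5 x⟩,
    fun y => ⟨fun n => g (y n), map_mem h4 h6 y⟩, ?_, ?_, ?_, ?_, map_UB h3 h5, map_UB h4 h6⟩
  · intro x
    apply lp.ext
    funext n
    exact h1 (x n)
  · intro x
    apply lp.ext
    funext n
    exact h2 (x n)
  · intro t ht x
    apply lp.ext
    funext n
    exact h3 t ht (x n)
  · intro t ht x
    apply lp.ext
    funext n
    exact h4 t ht (x n)

end

end Pool.Agent.MP0402b8
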