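import Pool.Agent.MP0402b8.L2

set_option autoImplicit false

namespace Pool.Agent.MP0402b8.Prd

section
variable {A B : Type} [NormedAddCommGroup A] [NormedSpace ℝ A] [NormedAddCommGroup B]
  [NormedSpace ℝ B]

/-- first coordinates -/
def p1 (z : l2 (A × B)) : l2 A := ⟨fun n => (z n).1, (mem_l2_iff _).2
  (Summable.of_nonneg_of_le (fun _ => by positivity)
    (fun n => pow_le_pow_left₀ (norm_nonneg _) (norm_fst_le (z n)) 2) (l2_summable z))⟩

/-- second coordinates -/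
def p2 (z : l2 (A × B)) : l2 B := ⟨fun n => (z n).2, (mem_l2_iff _).2
  (Summable.of_nonneg_of_le (fun _ => by positivity)
    (fun n => pow_le_pow_left₀ (norm_nonneg _) (norm_snd_le (z n)) 2) (l2_summable z))⟩

lemma pair_le (a : A) (b : B) : ‖(a, b)‖ ^ 2 ≤ ‖a‖ ^ 2 + ‖b‖ ^ 2 := by
  rw [Prod.norm_def]
  rcases max_choice ‖a‖ ‖b‖ with h | h
  · simp only [h]; nlinarith [sq_nonneg ‖b‖]
  · simp only [h]; nlinarith [sq_nonneg ‖a‖]

/-- pairing -/
def pr (x : l2 A) (y : l2 B) : l2 (A × B) := ⟨fun n => (x n, y n), (mem_l2_iff _).2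
  (Summable.of_nonneg_of_le (fun _ => by positivity)
    (fun n => pair_le (x n) (y n)) ((l2_summable x).add (l2_summable y)))⟩

lemma p1_norm (z : l2 (A × B)) : ‖p1 z‖ ≤ ‖z‖ := by
  rw [← sq_le_sq₀ (norm_nonneg _) (norm_nonneg _), l2_norm_sq, l2_norm_sq]
  exact Summable.tsum_le_tsum (fun n => pow_le_pow_left₀ (norm_nonneg _) (norm_fst_le (z n)) 2)
    (l2_summable (p1 z)) (l2_summable z)

lemma p2_norm (z : l2 (A × B)) : ‖p2 z‖ ≤ ‖z‖ := by
  rw [← sq_le_sq₀ (norm_nonneg _) (norm_nonneg _), l2_norm_sq, l2_norm_sq]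
  exact Summable.tsum_le_tsum (fun n => pow_le_pow_left₀ (norm_nonneg _) (norm_snd_le (z n)) 2)
    (l2_summable (p2 z)) (l2_summable z)

lemma pr_norm (x : l2 A) (y : l2 B) : ‖pr x y‖ ≤ 2 * ‖((x, y) : l2 A × l2 B)‖ := by
  have h0 : ‖pr x y‖ ^ 2 ≤ ‖x‖ ^ 2 + ‖y‖ ^ 2 := by
    rw [l2_norm_sq, l2_norm_sq, l2_norm_sq, ← (l2_summable x).tsum_add (l2_summable y)]
    exact Summable.tsum_le_tsum (fun n => pair_le (x n) (y n)) (l2_summable (pr x y))
      ((l2_summable x).add (l2_summable y))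
  have h1 : ‖x‖ ≤ ‖((x, y) : l2 A × l2 B)‖ := norm_fst_le (x, y)
  have h2 : ‖y‖ ≤ ‖((x, y) : l2 A × l2 B)‖ := norm_snd_le (x, y)
  have h3 := norm_nonneg x
  have h4 := norm_nonneg y
  rw [← sq_le_sq₀ (norm_nonneg _) (by positivity)]
  nlinarith

lemma l2_prod : HU (l2 (A × B)) (l2 A × l2 B) := by
  refine ⟨fun z => (p1 z, p2 z), fun p => pr p.1 p.2, ?_, ?_, ?_, ?_, ?_, ?_⟩
  · intro z
    apply lp.ext; funext n; rfl
  · intro p
    refine Prod.ext ?_ ?_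
    · apply lp.ext; funext n; rfl
    · apply lp.ext; funext n; rfl
  · intro t _ z
    refine Prod.ext ?_ ?_
    · apply lp.ext; funext n; rfl
    · apply lp.ext; funext n; rfl
  · intro t _ p
    apply lp.ext; funext n; rfl
  · apply UB_of_lip _ 1
    intro x y
    have e : ((p1 x, p2 x) : l2 A × l2 B) - (p1 y, p2 y) = (p1 (x - y), p2 (x - y)) := by
      refine Prod.ext ?_ ?_
      · apply lp.ext; funext n; rfl
      · apply lp.ext; funext n; rfl
    show ‖((p1 x, p2 x) : l2 A × l2 B) - (p1 y, p2 y)‖ ≤ 1 * ‖x - y‖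
    rw [e, one_mul, Prod.norm_def]
    exact max_le (p1_norm _) (p2_norm _)
  · apply UB_of_lip _ 2
    intro p q
    have e : pr p.1 p.2 - pr q.1 q.2 = pr (p - q).1 (p - q).2 := by
      apply lp.ext; funext n; rfl
    show ‖pr p.1 p.2 - pr q.1 q.2‖ ≤ 2 * ‖p - q‖
    rw [e]
    exact pr_norm _ _

end

end Pool.Agent.MP0402b8.Prd
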