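import Pool.Agent.MP0402b8.L2

set_option autoImplicit false

namespace Pool.Agent.MP0402b8

/-- `X` embeds isomorphically in a uniformly convex space -/
def SuperRefl (X : Type) [NormedAddCommGroup X] [NormedSpace ℝ X] : Prop :=
  ∃ (Z : Type) (_ : NormedAddCommGroup Z) (_ : NormedSpace ℝ Z) (_ : UniformConvexSpace Z)
    (e : X →L[ℝ] Z) (c : ℝ), 0 < c ∧ ∀ x, c * ‖x‖ ≤ ‖e x‖

lemma exists_section {X V : Type} [NormedAddCommGroup X] [NormedSpace ℝ X] [CompleteSpace X]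
    [NormedAddCommGroup V] [NormedSpace ℝ V] [CompleteSpace V]
    (h : SuperRefl X) (T : X →L[ℝ] V) (hT : Function.Surjective T) :
    ∃ σ : V → X, (∀ v, T (σ v) = v) ∧ PH σ ∧ UB σ := by
  obtain ⟨Z, _, _, _, e, c, hc, hec⟩ := h
  have hK : IsClosed ((LinearMap.ker (T : X →ₗ[ℝ] V)) : Set X) := T.isClosed_ker
  let φ := LinearMap.quotKerEquivOfSurjective (T : X →ₗ[ℝ] V) hT
  have hφ : ∀ x : X, φ (Submodule.Quotient.mk x) = T x := fun x => rfl
  have hcont : Continuous φ := by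
    refine AddMonoidHomClass.continuous_of_bound φ ‖T‖ (fun w => ?_)
    refine le_of_forall_pos_le_add fun η hη => ?_
    have hC : 0 < ‖T‖ + 1 := by positivity
    obtain ⟨x, hx, hlt⟩ := Submodule.Quotient.norm_mk_lt w (ε := η / (‖T‖ + 1)) (by positivity)
    rw [← hx, hφ]
    calc ‖T x‖ ≤ ‖T‖ * ‖x‖ := T.le_opNorm x
      _ ≤ ‖T‖ * (‖w‖ + η / (‖T‖ + 1)) := by gcongr
      _ ≤ ‖T‖ * ‖w‖ + η := by
        rw [mul_add]
        gcongr
        rw [← mul_div_assoc, div_le_iff₀ hC]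
        nlinarith
      _ = _ := by rw [hx]
  let ψ : (X ⧸ LinearMap.ker (T : X →ₗ[ℝ] V)) ≃L[ℝ] V := φ.toContinuousLinearEquivOfContinuous hcont
  have hψ : ∀ w, ψ w = φ w := fun w => rfl
  refine ⟨fun v => sec e c hc hec _ (ψ.symm v), fun v => ?_, fun t ht v => ?_, ?_⟩
  · rw [← hφ, sec_mk, ← hψ, ContinuousLinearEquiv.apply_symm_apply]
  · simp only [map_smul]
    exact sec_smul e c hc hec _ t ht _
  · have hu : UB (fun v => ψ.symm v) :=
      UB_clm (ψ.symm : V →L[ℝ] (X ⧸ LinearMap.ker (T : X →ₗ[ℝ] V)))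
    have hp : PH (fun v => ψ.symm v) := fun t _ v => map_smul ψ.symm t v
    exact UB.comp (fun t ht w => sec_smul e c hc hec _ t ht w) (sec_UB e c hc hec _) hp hu

lemma HU_quot {X : Type} [NormedAddCommGroup X] [NormedSpace ℝ X] [CompleteSpace X]
    (h : SuperRefl X) (Y : Submodule ℝ X) [IsClosed (Y : Set X)]
    (W : Submodule ℝ (X ⧸ Y)) [IsClosed (W : Set (X ⧸ Y))] :
    HU (X ⧸ Y) (((X ⧸ Y) ⧸ W) × W) := by
  let q : X →L[ℝ] X ⧸ Y := (Submodule.mkQ Y).mkContinuous 1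
    (fun x => by rw [one_mul]; exact Submodule.Quotient.norm_mk_le Y x)
  let q' : (X ⧸ Y) →L[ℝ] (X ⧸ Y) ⧸ W := (Submodule.mkQ W).mkContinuous 1
    (fun x => by rw [one_mul]; exact Submodule.Quotient.norm_mk_le W x)
  have hq : ∀ x, q x = Submodule.Quotient.mk x := fun x => rfl
  have hq' : ∀ x, q' x = Submodule.Quotient.mk x := fun x => rfl
  have hs : Function.Surjective (q'.comp q) := by
    intro v
    obtain ⟨w, rfl⟩ := Submodule.Quotient.mk_surjective W v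
    obtain ⟨x, rfl⟩ := Submodule.Quotient.mk_surjective Y w
    exact ⟨x, rfl⟩
  obtain ⟨σ, h1, h2, h3⟩ := exists_section h (q'.comp q) hs
  refine HU_split W (fun v => q (σ v)) (fun v => h1 v) (fun t ht v => ?_) ?_
  · rw [h2 t ht, map_smul]
  · exact UB.comp (fun t _ x => map_smul q t x) (UB_clm q) h2 h3

end Pool.Agent.MP0402b8
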